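import Mathlib
import Pool.Agent.TH118.CR.Irr
import Pool.Agent.TH118.CR.Torus
import Pool.Agent.TH118.CR.Nil

/-!
# From a complex reflection to a nilpotent element of rank one
-/

set_option linter.unusedSectionVars false

namespace Pool.Agent.TH118.CR

open Module Pool.Agent.H204R3.SP Pool.Agent.H204R3.GP Pool.Agent.W522.U

variable {K : Type} [Field K] [CharZero K] {X : Type} [AddCommGroup X] [Module K X]
  [FiniteDimensional K X] {Γ : Type} [Group Γ]

/-- `γ` acts on `U` as a scalar times a complex reflection with eigenvalue `ε` (as a scalar, if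
`ε = 1`). -/
def ReflectsOn (R : Representation K Γ X) (γ : Γ) (U : Submodule K X) (ε : K) : Prop :=
  ∃ (c : K) (d : X) (φ : X →ₗ[K] K), d ∈ U ∧ φ d = 1 ∧
    ∀ u ∈ U, R γ u = c • (u + ((ε - 1) * φ u) • d)

variable {R : Representation K Γ X} {χ : Γ →* K}

theorem refl_pow {γ : Γ} {U : Submodule K X} {ε c : K} {d : X} {φ : X →ₗ[K] K} (hd : d ∈ U)
    (hφ : φ d = 1) (h : ∀ u ∈ U, R γ u = c • (u + ((ε - 1) * φ u) • d)) (t : ℕ) :
    ∀ u ∈ U, R (γ ^ t) u = c ^ t • (u + ((ε ^ t - 1) * φ u) • d) := by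
  induction t with
  | zero => intro u _; simp
  | succ t ih =>
    intro u hu
    have h1 : u + ((ε - 1) * φ u) • d ∈ U := U.add_mem hu (U.smul_mem _ hd)
    rw [pow_succ, map_mul, Module.End.mul_apply, h u hu, map_smul, ih _ h1, map_add, map_smul, hφ,
      smul_eq_mul, mul_one, smul_smul, mul_comm c, ← pow_succ, add_assoc, ← add_smul]
    congr 3
    ring

theorem refl_ne {γ : Γ} {U : Submodule K X} {ε c : K} {d : X} {φ : X →ₗ[K] K} (hd : d ∈ U)
    (hφ : φ d = 1) (h : ∀ u ∈ U, R γ u = c • (u + ((ε - 1) * φ u) • d)) : c ≠ 0 ∧ ε ≠ 0 := by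
  have hd0 : d ≠ 0 := by
    rintro rfl
    rw [map_zero] at hφ
    exact zero_ne_one hφ
  have h1 := Rne (R := R) γ hd0
  have h2 : R γ d = (c * ε) • d := by
    rw [h d hd, hφ, mul_one, mul_smul]
    congr 1
    module
  rw [h2] at h1
  constructor
  · rintro rfl
    exact h1 (by rw [zero_mul, zero_smul])
  · rintro rfl
    exact h1 (by rw [mul_zero, zero_smul])

theorem refl_inv {γ : Γ} {U : Submodule K X} {ε c : K} {d : X} {φ : X →ₗ[K] K} (hd : d ∈ U)
    (hφ : φ d = 1) (h : ∀ u ∈ U, R γ u = c • (u + ((ε - 1) * φ u) • d)) :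
    ∀ u ∈ U, R γ⁻¹ u = c⁻¹ • (u + ((ε⁻¹ - 1) * φ u) • d) := by
  obtain ⟨hc, hε⟩ := refl_ne hd hφ h
  intro u hu
  have h1 : u + ((ε⁻¹ - 1) * φ u) • d ∈ U := U.add_mem hu (U.smul_mem _ hd)
  have h3 : (ε⁻¹ - 1) * φ u + (ε - 1) * φ (u + ((ε⁻¹ - 1) * φ u) • d) = 0 := by
    rw [map_add, map_smul, hφ, smul_eq_mul, mul_one]
    field_simp
    ring
  have h2 : R γ (c⁻¹ • (u + ((ε⁻¹ - 1) * φ u) • d)) = u := by
    rw [map_smul, h _ h1, smul_smul, inv_mul_cancel₀ hc, one_smul, add_assoc, ← add_smul, h3,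
      zero_smul, add_zero]
  conv_lhs => rw [← h2]
  rw [Rinv]

open scoped Classical in
theorem geom_root {x : K} {k : ℕ} (hx : x ^ k = 1) :
    ∑ t ∈ Finset.range k, x ^ t = if x = 1 then (k : K) else 0 := by
  split_ifs with h
  · rw [h]
    simp
  · have h1 := geom_sum_mul x k
    rw [hx, sub_self] at h1
    exact (mul_eq_zero.1 h1).resolve_right (sub_ne_zero.2 h)

/-- The projection of `Y` to an eigenspace of the conjugation by `γ`. -/
noncomputable def avg (R : Representation K Γ X) (γ : Γ) (k : ℕ) (μ : K) (Y : End K X) :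
    End K X :=
  ∑ t ∈ Finset.range k, (μ⁻¹) ^ t • (R (γ ^ t) * Y * R (γ ^ t)⁻¹)

theorem avg_mem (γ : Γ) (k : ℕ) (μ : K) {Y : End K X} (hY : Y ∈ lieT R χ) :
    avg R γ k μ Y ∈ lieT R χ :=
  Submodule.sum_mem _ fun t _ => Submodule.smul_mem _ _ (lieT_conj R χ (γ ^ t) hY)

open scoped Classical in
/-- The projection on a subspace on which `γ` is a complex reflection. -/
theorem avg_on {γ : Γ} {U : Submodule K X} {ε c : K} {d : X} {φ : X →ₗ[K] K} (hd : d ∈ U)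
    (hφ : φ d = 1) (h : ∀ u ∈ U, R γ u = c • (u + ((ε - 1) * φ u) • d)) {k : ℕ} (hεk : ε ^ k = 1)
    {μ : K} (hμk : μ ^ k = 1) (hμ1 : μ ≠ 1) (hμ0 : μ ≠ 0) {Y : End K X} (hY : ∀ u ∈ U, Y u ∈ U) {u : X}
    (hu : u ∈ U) : avg R γ k μ Y u =
      ((if ε⁻¹ = μ then (k : K) else 0) * φ u) • (Y d - φ (Y d) • d) +
      ((if ε = μ then (k : K) else 0) * (φ (Y u) - φ u * φ (Y d))) • d := by
  obtain ⟨hc, hε⟩ := refl_ne hd hφ h
  have hterm : ∀ t : ℕ, (μ⁻¹) ^ t • (R (γ ^ t) * Y * R (γ ^ t)⁻¹) u =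
      (μ⁻¹) ^ t • (Y u - φ u • Y d - φ (Y u) • d + (2 * φ u * φ (Y d)) • d) +
      ((ε⁻¹ * μ⁻¹) ^ t * φ u) • (Y d - φ (Y d) • d) +
      ((ε * μ⁻¹) ^ t * (φ (Y u) - φ u * φ (Y d))) • d := by
    intro t
    have h1 : R (γ ^ t)⁻¹ u = (c⁻¹) ^ t • (u + (((ε⁻¹) ^ t - 1) * φ u) • d) := by
      rw [← inv_pow]
      exact refl_pow hd hφ (refl_inv hd hφ h) t u hu
    have h2 : Y (u + (((ε⁻¹) ^ t - 1) * φ u) • d) ∈ U := hY _ (U.add_mem hu (U.smul_mem _ hd))
    have h4 : (c⁻¹) ^ t * c ^ t = 1 := by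
      rw [← mul_pow, inv_mul_cancel₀ hc, one_pow]
    have h5 : (ε⁻¹) ^ t * ε ^ t = 1 := by
      rw [← mul_pow, inv_mul_cancel₀ hε, one_pow]
    rw [Module.End.mul_apply, Module.End.mul_apply, h1, map_smul, map_smul,
      refl_pow hd hφ h t _ h2, smul_smul _ (c ^ t), h4, one_smul, map_add, map_smul, map_add,
      map_smul, smul_eq_mul, mul_pow, mul_pow]
    match_scalars
    · ring
    · ring
    · linear_combination (μ⁻¹ ^ t * φ u * φ (Y d)) * h5
  have hsum : ∀ x : K, x ^ k = 1 → ∑ t ∈ Finset.range k, (x * μ⁻¹) ^ t =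
      if x = μ then (k : K) else 0 := by
    intro x hx
    rw [geom_root (by rw [mul_pow, hx, inv_pow, hμk, inv_one, mul_one])]
    by_cases h1 : x = μ
    · rw [if_pos h1, if_pos (by rw [h1, mul_inv_cancel₀ hμ0])]
    · rw [if_neg h1, if_neg (fun h2 => h1 ((mul_inv_eq_one₀ hμ0).1 h2))]
  have hεk' : (ε⁻¹) ^ k = 1 := by rw [inv_pow, hεk, inv_one]
  have h0 : ∑ t ∈ Finset.range k, (μ⁻¹) ^ t = 0 := by
    rw [geom_root (by rw [inv_pow, hμk, inv_one]), if_neg (fun h2 => hμ1 (inv_eq_one.1 h2))]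
  rw [avg, LinearMap.sum_apply]
  simp only [LinearMap.smul_apply]
  rw [Finset.sum_congr rfl fun t _ => hterm t, Finset.sum_add_distrib, Finset.sum_add_distrib,
    ← Finset.sum_smul, ← Finset.sum_smul, ← Finset.sum_smul, ← Finset.sum_mul, ← Finset.sum_mul,
    h0, hsum _ hεk, hsum _ hεk', zero_smul, zero_add]

theorem exists_zero {U : Submodule K X} (h2 : 2 ≤ finrank K U) (φ : X →ₗ[K] K) :
    ∃ u ∈ U, u ≠ 0 ∧ φ u = 0 := by
  by_contra hcon
  push Not at hcon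
  have hinj : Function.Injective (φ.comp U.subtype) := by
    rw [injective_iff_map_eq_zero]
    intro u hu
    by_contra h0
    exact hcon u u.2 (fun h => h0 (Subtype.ext h)) hu
  have h3 := LinearMap.finrank_le_finrank_of_injective hinj
  rw [finrank_self] at h3
  omega

theorem refl_order {γ : Γ} {U : Submodule K X} {ε : K} (h : ReflectsOn R γ U ε)
    (h2 : 2 ≤ finrank K U) {k : ℕ} (hγ : R γ ^ k = 1) : ε ^ k = 1 := by
  obtain ⟨c, d, φ, hd, hφ, h⟩ := h
  have h1 : ∀ u ∈ U, u = c ^ k • (u + ((ε ^ k - 1) * φ u) • d) := by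
    intro u hu
    rw [← refl_pow hd hφ h k u hu, map_pow, hγ, Module.End.one_apply]
  obtain ⟨u, hu, hu0, hφu⟩ := exists_zero h2 φ
  have h3 := h1 u hu
  rw [hφu, mul_zero, zero_smul, add_zero] at h3
  have h4 : c ^ k = 1 := by
    have h5 : (c ^ k - 1) • u = 0 := by rw [sub_smul, ← h3, one_smul, sub_self]
    exact sub_eq_zero.1 ((smul_eq_zero.1 h5).resolve_right hu0)
  have h5 := h1 d hd
  rw [h4, one_smul, hφ, mul_one] at h5
  have hd0 : d ≠ 0 := by
    rintro rfl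
    rw [map_zero] at hφ
    exact zero_ne_one hφ
  have h6 : (ε ^ k - 1) • d = 0 := by
    have h7 : d + (ε ^ k - 1) • d = d + 0 := by rw [← h5, add_zero]
    exact add_left_cancel h7
  exact sub_eq_zero.1 ((smul_eq_zero.1 h6).resolve_right hd0)

/-- A complex reflection of order at least three on `E i` gives a nilpotent element of the Lie
algebra which is of rank one on `E i`. -/
theorem refl_N {I : Type} (E : I → Submodule K X) (hE : ⨆ j, E j = ⊤)
    (hst : ∀ j, ∀ Y ∈ lieT R χ, ∀ u ∈ E j, Y u ∈ E j) (h2 : ∀ j, 2 ≤ finrank K (E j)) {γ : Γ}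
    {k : ℕ} (hk : 0 < k) (hγ : R γ ^ k = 1) (ε : I → K) (hr : ∀ j, ReflectsOn R γ (E j) (ε j))
    (i : I) (hi1 : ε i ≠ 1) (hi2 : ε i ≠ -1) (hSI : SI R (E i))
    (hns : ∃ Y ∈ lieT R χ, ¬∃ a : K, ∀ u ∈ E i, Y u = a • u) :
    ∃ N ∈ lieT R χ, N * N = 0 ∧ finrank K ((E i).map N) = 1 := by
  classical
  have hεk : ∀ j, (ε j) ^ k = 1 := fun j => refl_order (hr j) (h2 j) hγ
  have hε0 : ε i ≠ 0 := by
    intro h
    have h1 := hεk i
    rw [h, zero_pow hk.ne'] at h1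
    exact zero_ne_one h1
  have hμk : ((ε i)⁻¹) ^ k = 1 := by rw [inv_pow, hεk, inv_one]
  have hμ1 : (ε i)⁻¹ ≠ 1 := fun h => hi1 (inv_eq_one.1 h)
  have hμ0 : (ε i)⁻¹ ≠ 0 := inv_ne_zero hε0
  have hμ2 : (ε i)⁻¹ ≠ ε i := by
    intro h
    have h1 : (ε i - 1) * (ε i + 1) = 0 := by
      have h3 : ε i * ε i = 1 := by
        nth_rewrite 1 [← h]
        exact inv_mul_cancel₀ hε0
      linear_combination h3
    rcases mul_eq_zero.1 h1 with h3 | h3
    · exact hi1 (sub_eq_zero.1 h3)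
    · exact hi2 (eq_neg_of_add_eq_zero_left h3)
  have hri := hr i
  obtain ⟨c, d, φ, hd, hφ, h⟩ := hri
  have hd0 : d ≠ 0 := by
    rintro rfl
    rw [map_zero] at hφ
    exact zero_ne_one hφ
  obtain ⟨Y, hY, hYd⟩ : ∃ Y ∈ lieT R χ, Y d - φ (Y d) • d ≠ 0 := by
    by_contra hcon
    push Not at hcon
    obtain ⟨Y, hY, hna⟩ := hns
    exact hna (scalar_of_vector hSI (lieT R χ) (fun g Y hY => lieT_conj R χ g hY) hd hd0
      (fun Y hY => ⟨φ (Y d), sub_eq_zero.1 (hcon Y hY)⟩) Y hY)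
  refine ⟨avg R γ k (ε i)⁻¹ Y, avg_mem γ k _ hY, ?_, ?_⟩
  · rw [← LinearMap.ker_eq_top, eq_top_iff, ← hE, iSup_le_iff]
    intro j u hu
    rw [LinearMap.mem_ker, Module.End.mul_apply]
    obtain ⟨c', d', φ', hd', hφ', h'⟩ := hr j
    have hYj : ∀ u ∈ E j, Y u ∈ E j := hst j Y hY
    have hav := fun {v : X} (hv : v ∈ E j) => avg_on hd' hφ' h' (hεk j) hμk hμ1 hμ0 hYj hv
    have hw : Y d' - φ' (Y d') • d' ∈ E j := (E j).sub_mem (hYj _ hd') ((E j).smul_mem _ hd')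
    have hφw : φ' (Y d' - φ' (Y d') • d') = 0 := by
      rw [map_sub, map_smul, hφ', smul_eq_mul, mul_one, sub_self]
    have h0 : (if (ε j)⁻¹ = (ε i)⁻¹ then (k : K) else 0) * (if ε j = (ε i)⁻¹ then (k : K) else 0)
        = 0 := by
      by_cases h3 : (ε j)⁻¹ = (ε i)⁻¹
      · rw [inv_inj] at h3
        rw [h3, if_neg hμ2.symm, mul_zero]
      · rw [if_neg h3, zero_mul]
    rw [hav hu, map_add, map_smul, map_smul, hav hw, hav hd', hφw, hφ']
    generalize (if (ε j)⁻¹ = (ε i)⁻¹ then (k : K) else 0) = s at *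
    generalize (if ε j = (ε i)⁻¹ then (k : K) else 0) = s' at *
    generalize Y d' - φ' (Y d') • d' = w at *
    match_scalars
    · linear_combination (φ' (Y u) - φ' u * φ' (Y d')) * h0
    · linear_combination (φ' u * φ' (Y w)) * h0
  · have hYi : ∀ u ∈ E i, Y u ∈ E i := hst i Y hY
    have hav : ∀ u ∈ E i, avg R γ k (ε i)⁻¹ Y u = ((k : K) * φ u) • (Y d - φ (Y d) • d) := by
      intro u hu
      rw [avg_on hd hφ h (hεk i) hμk hμ1 hμ0 hYi hu, if_pos rfl, if_neg hμ2.symm, zero_mul,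
        zero_smul, add_zero]
    have hmap : (E i).map (avg R γ k (ε i)⁻¹ Y) = Submodule.span K {Y d - φ (Y d) • d} := by
      apply le_antisymm
      · rintro _ ⟨u, hu, rfl⟩
        rw [hav u hu]
        exact Submodule.smul_mem _ _ (Submodule.mem_span_singleton_self _)
      · rw [Submodule.span_singleton_le_iff_mem]
        refine ⟨(k : K)⁻¹ • d, (E i).smul_mem _ hd, ?_⟩
        have hkK : (k : K) ≠ 0 := Nat.cast_ne_zero.2 hk.ne'
        rw [hav _ ((E i).smul_mem _ hd), map_smul, hφ, smul_eq_mul, mul_one, mul_inv_cancel₀ hkK,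
          one_smul]
    rw [hmap, finrank_span_singleton hYd]

/-- The rank of an element of the Lie algebra on isomorphic strongly irreducible subspaces. -/
theorem rank_transfer (ω : X →ₗ[K] X →ₗ[K] K) (hnd : ∀ u, (∀ v, ω u v = 0) → u = 0)
    (hωR : ∀ g u v, ω (R g u) (R g v) = χ g * ω u v) (hss : HasProj R) {U U' : Submodule K X}
    (hU : SI R U) (hU' : SI R U') (h : Tw R (fun _ => 1) U U') {N : End K X}
    (hN : N ∈ lieT R χ) : finrank K (U'.map N) = finrank K (U.map N) := by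
  have hNU := lieT_stable ω hnd hωR hss hU.2.1 hN
  obtain ⟨Δ, hΔ, T, hTU, h0, hT⟩ := h
  obtain ⟨Δ', hΔ', hst⟩ := hU.2.1
  obtain ⟨p, hp1, hp2, hp3⟩ := hss (Δ ⊓ Δ') inferInstance U (fun g hg => hst g hg.2)
  have hcomm := Pool.Agent.W839.OT.HTFam.comm R χ ω hnd hωR (Δ ⊓ Δ') inferInstance (T.comp p)
    (fun g hg v => by
      rw [LinearMap.comp_apply, LinearMap.comp_apply, hp3 g hg, hT g hg.1 _ (hp1 v), one_smul])
    N hN
  have hTN : ∀ u ∈ U, N (T u) = T (N u) := by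
    intro u hu
    have h1 := hcomm u
    rw [LinearMap.comp_apply, LinearMap.comp_apply, hp2 u hu, hp2 _ (hNU u hu)] at h1
    exact h1
  have hinj := tw_inj hU hΔ h0 hT
  have hmap := tw_map hU hU' hΔ hTU h0 hT
  have h1 : U'.map N = (U.map N).map T := by
    rw [← hmap]
    apply le_antisymm
    · rintro _ ⟨_, ⟨u, hu, rfl⟩, rfl⟩
      exact ⟨N u, ⟨u, hu, rfl⟩, (hTN u hu).symm⟩
    · rintro _ ⟨_, ⟨u, hu, rfl⟩, rfl⟩
      exact ⟨T u, ⟨u, hu, rfl⟩, hTN u hu⟩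
  rw [h1]
  have h2 : Function.Injective (T.domRestrict (U.map N)) := by
    rw [injective_iff_map_eq_zero]
    rintro ⟨_, u, hu, rfl⟩ hv
    exact Subtype.ext (hinj _ (hNU u hu) hv)
  have h3 : (U.map N).map T = LinearMap.range (T.domRestrict (U.map N)) := by
    rw [LinearMap.range_domRestrict]
  rw [h3, LinearMap.finrank_range_of_inj h2]

end Pool.Agent.TH118.CR
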