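import Mathlib
import Pool.Agent.TH118.CR.Refl

/-!
# Reflections tell strongly irreducible subspaces apart, also up to twist
-/

set_option linter.unusedSectionVars false

namespace Pool.Agent.TH118.CR

open Module Pool.Agent.H204R3.SP Pool.Agent.H204R3.GP Pool.Agent.W522.U

variable {K : Type} [Field K] [CharZero K] {X : Type} [AddCommGroup X] [Module K X]
  [FiniteDimensional K X] {Γ : Type} [Group Γ] {R : Representation K Γ X} {χ : Γ →* K}

/-- An operator on a strongly irreducible subspace that commutes with the group up to scalars is a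
scalar. -/
theorem self_twist [IsAlgClosed K] {U : Submodule K X} (hU : SI R U) {Δ : Subgroup Γ}
    (hΔ : Δ.FiniteIndex) {H : X →ₗ[K] X} (hHU : ∀ u ∈ U, H u ∈ U) (h0 : ∃ u ∈ U, H u ≠ 0)
    {κ : Γ → K} (hH : ∀ g ∈ Δ, ∀ u ∈ U, H (R g u) = κ g • R g (H u)) :
    ∃ a : K, a ≠ 0 ∧ ∀ u ∈ U, H u = a • u := by
  classical
  obtain ⟨D, hD, hDU⟩ := hU.2.1
  have hinj := tw_inj hU hΔ h0 hH
  have hnt : Nontrivial U := by
    obtain ⟨u, hu, hu0⟩ := Submodule.exists_mem_ne_zero_of_ne_bot hU.1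
    exact ⟨⟨u, hu⟩, 0, fun h => hu0 (congrArg Subtype.val h)⟩
  obtain ⟨a, ha⟩ := Module.End.exists_eigenvalue (H.restrict hHU)
  obtain ⟨⟨u0, hu0⟩, hue⟩ := ha.exists_hasEigenvector
  have hu00 : u0 ≠ 0 := fun h => hue.2 (Subtype.ext h)
  have hua : H u0 = a • u0 := congrArg Subtype.val hue.apply_eq_smul
  have ha0 : a ≠ 0 := by
    rintro rfl
    rw [zero_smul] at hua
    exact hu00 (hinj u0 hu0 hua)
  have huniq : ∀ (g : Γ) (x y : K), x • R g u0 = y • R g u0 → x = y := by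
    intro g x y h
    have h7 : (x - y) • R g u0 = 0 := by rw [sub_smul, h, sub_self]
    exact sub_eq_zero.1 ((smul_eq_zero.1 h7).resolve_right (Rne g hu00))
  let D' : Subgroup Γ := Δ ⊓ D
  have hmul : ∀ g ∈ D', ∀ g' ∈ D', κ (g * g') = κ g * κ g' := by
    intro g hg g' hg'
    have h1 := hH (g * g') (Δ.mul_mem hg.1 hg'.1) u0 hu0
    have h2 := hH g hg.1 (R g' u0) (hDU g' hg'.2 u0 hu0)
    have hRm : R (g * g') u0 = R g (R g' u0) := by
      rw [map_mul, Module.End.mul_apply]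
    rw [hH g' hg'.1 u0 hu0, map_smul, hua, map_smul, map_smul, smul_smul, smul_smul, ← hRm] at h2
    rw [hua, map_smul, smul_smul, h2] at h1
    have h3 := huniq _ _ _ h1
    apply mul_right_cancel₀ ha0
    rw [← h3]
  have hκ0 : ∀ g ∈ D', κ g ≠ 0 := fun g hg => tw_ne hU hΔ h0 hH hg.1 (hDU g hg.2)
  have hone : κ 1 = 1 := by
    have h1 := hmul 1 D'.one_mem 1 D'.one_mem
    rw [mul_one] at h1
    exact mul_left_cancel₀ (hκ0 1 D'.one_mem) (by rw [← h1, mul_one])
  let H1 : Subgroup D' :=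
    { carrier := {g | κ g.1 = 1}
      one_mem' := hone
      mul_mem' := by
        intro g g' hg hg'
        change κ (g.1 * g'.1) = 1
        rw [hmul g.1 g.2 g'.1 g'.2, show κ g.1 = 1 from hg, show κ g'.1 = 1 from hg', mul_one]
      inv_mem' := by
        intro g hg
        change κ (g.1⁻¹) = 1
        have h1 := hmul g.1 g.2 g.1⁻¹ (D'.inv_mem g.2)
        rw [mul_inv_cancel, hone, show κ g.1 = 1 from hg, one_mul] at h1
        exact h1.symm }
  have hfin : Finite (Module.End.Eigenvalues (H.restrict hHU)) := inferInstance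
  have hval : ∀ g : D', Module.End.HasEigenvalue (H.restrict hHU) (κ g.1 * a) := by
    intro g
    have h1 : R g.1 u0 ∈ U := hDU g.1 g.2.2 u0 hu0
    refine Module.End.hasEigenvalue_of_hasEigenvector (x := ⟨R g.1 u0, h1⟩) ⟨?_, ?_⟩
    · rw [Module.End.mem_eigenspace_iff]
      apply Subtype.ext
      change H (R g.1 u0) = (κ g.1 * a) • R g.1 u0
      rw [hH g.1 g.2.1 u0 hu0, hua, map_smul, smul_smul]
    · intro h
      exact Rne g.1 hu00 (congrArg Subtype.val h)
  have hH1 : H1.FiniteIndex := by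
    refine fi_of_map H1 (T := Module.End.Eigenvalues (H.restrict hHU))
      (fun g => ⟨κ g.1 * a, hval g⟩) fun g g' hgg' => ?_
    have h1 : κ g.1 * a = κ g'.1 * a := congrArg Subtype.val hgg'
    have h2 := mul_right_cancel₀ ha0 h1
    change κ (g.1⁻¹ * g'.1) = 1
    have h3 := hmul g.1 g.2 _ (D'.mul_mem (D'.inv_mem g.2) g'.2)
    rw [mul_inv_cancel_left, ← h2] at h3
    exact (mul_left_cancel₀ (hκ0 g.1 g.2) (by rw [← h3, mul_one]))
  have hD' : D'.FiniteIndex := inferInstance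
  have hfi := fi_map hD' H1 hH1
  let Ha : X →ₗ[K] X := H - a • LinearMap.id
  have hHa : ∀ v, Ha v = H v - a • v := fun _ => rfl
  let W : Submodule K X := U ⊓ LinearMap.ker Ha
  have hW : Pot R W := by
    refine ⟨H1.map D'.subtype, hfi, ?_⟩
    rintro _ ⟨g, hg, rfl⟩ u hu
    refine ⟨hDU g.1 g.2.2 u hu.1, ?_⟩
    have h1 : Ha u = 0 := hu.2
    rw [hHa, sub_eq_zero] at h1
    change Ha (R g.1 u) = 0
    rw [hHa, sub_eq_zero,
      hH g.1 g.2.1 u hu.1, h1, show κ g.1 = 1 from hg, one_smul, map_smul]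
  refine ⟨a, ha0, fun u hu => ?_⟩
  rcases hU.2.2 W inf_le_left hW with h | h
  · exfalso
    have h1 : u0 ∈ W := by
      refine ⟨hu0, ?_⟩
      change Ha u0 = 0
      rw [hHa, hua, sub_self]
    rw [h, Submodule.mem_bot] at h1
    exact hu00 h1
  · rw [← h] at hu
    have h1 : Ha u = 0 := hu.2
    rw [hHa, sub_eq_zero] at h1
    exact h1

/-- Twisted isomorphisms of strongly irreducible subspaces are unique up to a scalar. -/
theorem twist_unique [IsAlgClosed K] {U U' : Submodule K X} (hU : SI R U) (hU' : SI R U')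
    {Δ Δ' : Subgroup Γ} (hΔ : Δ.FiniteIndex) (hΔ' : Δ'.FiniteIndex) {T T' : X →ₗ[K] X}
    (hTU : ∀ u ∈ U, T u ∈ U') (hT'U : ∀ u ∈ U, T' u ∈ U') (h0 : ∃ u ∈ U, T u ≠ 0)
    (h0' : ∃ u ∈ U, T' u ≠ 0) {ψ ψ' : Γ → K}
    (hT : ∀ g ∈ Δ, ∀ u ∈ U, T (R g u) = ψ g • R g (T u))
    (hT' : ∀ g ∈ Δ', ∀ u ∈ U, T' (R g u) = ψ' g • R g (T' u)) :
    ∃ a : K, a ≠ 0 ∧ ∀ u ∈ U, T' u = a • T u := by
  obtain ⟨e, he⟩ := tw_equiv hU hU' hΔ hTU h0 hT
  obtain ⟨p, hp⟩ := exists_pr U'
  let S : X →ₗ[K] X := U.subtype.comp (e.symm.toLinearMap.comp p)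
  have hS : ∀ u ∈ U, S (T u) = u := by
    intro u hu
    have h2 : p (T u) = e ⟨u, hu⟩ := by
      rw [← he ⟨u, hu⟩]
      exact hp _
    change ((e.symm (p (T u)) : U) : X) = u
    rw [h2, e.symm_apply_apply]
  have hTS : ∀ v ∈ U', T (S v) = v := by
    intro v hv
    have h2 : p v = ⟨v, hv⟩ := hp ⟨v, hv⟩
    change T ((e.symm (p v) : U) : X) = v
    rw [← he, h2, e.apply_symm_apply]
  have hSU : ∀ v, S v ∈ U := fun v => SetLike.coe_mem _
  obtain ⟨D, hD, hDU⟩ := hU.2.1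
  obtain ⟨a, ha, haH⟩ := self_twist hU (Δ := (Δ ⊓ Δ') ⊓ D) inferInstance (H := S.comp T')
    (fun u _ => hSU _) (by
      obtain ⟨u, hu, hu0⟩ := h0'
      refine ⟨u, hu, fun h => hu0 ?_⟩
      rw [← hTS _ (hT'U u hu)]
      rw [LinearMap.comp_apply] at h
      rw [h, map_zero]) (κ := fun g => ψ' g * (ψ g)⁻¹) (by
      intro g hg u hu
      have hψ0 : ψ g ≠ 0 := tw_ne hU hΔ h0 hT hg.1.1 (hDU g hg.2)
      change S (T' (R g u)) = (ψ' g * (ψ g)⁻¹) • R g (S (T' u))
      rw [hT' g hg.1.2 u hu, map_smul, mul_smul]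
      congr 1
      have h1 : R g (T' u) = (ψ g)⁻¹ • T (R g (S (T' u))) := by
        rw [hT g hg.1.1 _ (hSU _), hTS _ (hT'U u hu), smul_smul, inv_mul_cancel₀ hψ0, one_smul]
      rw [h1, map_smul, hS _ (hDU g hg.2 _ (hSU _))])
  refine ⟨a, ha, fun u hu => ?_⟩
  rw [← hTS _ (hT'U u hu), ← map_smul]
  congr 1
  exact haH u hu

/-- A reflection with different eigenvalues shows that two strongly irreducible subspaces do not
agree up to twist. -/
theorem sep [IsAlgClosed K] {U U' : Submodule K X} (hU : SI R U) (hU' : SI R U')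
    (h3 : 3 ≤ finrank K U) {γ : Γ} {ε ε' : K} (h : ReflectsOn R γ U ε)
    (h' : ReflectsOn R γ U' ε') (hε : ε ≠ 1) (hεε : ε' ≠ ε) (ψ : Γ → K) : ¬Tw R ψ U U' := by
  rintro ⟨Δ, hΔ, T, hTU, h0, hT⟩
  obtain ⟨c, d, φ, hd, hφ, h⟩ := h
  obtain ⟨c', d', φ', hd', hφ', h'⟩ := h'
  have hγU : ∀ u ∈ U, R γ u ∈ U := by
    intro u hu
    rw [h u hu]
    exact U.smul_mem _ (U.add_mem hu (U.smul_mem _ hd))
  have hγU' : ∀ u ∈ U', R γ⁻¹ u ∈ U' := by
    intro u hu
    rw [refl_inv hd' hφ' h' u hu]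
    exact U'.smul_mem _ (U'.add_mem hu (U'.smul_mem _ hd'))
  have hinj := tw_inj hU hΔ h0 hT
  obtain ⟨a, ha, haT⟩ := twist_unique hU hU' hΔ
    (Δ' := Δ.comap (MulAut.conj γ).toMonoidHom) ⟨by
      rw [Subgroup.index_comap_of_surjective _ (MulAut.conj γ).surjective]
      exact hΔ.index_ne_zero⟩ (T := T) (T' := (R γ⁻¹).comp (T.comp (R γ))) hTU
    (fun u hu => hγU' _ (hTU _ (hγU u hu))) h0 (by
      obtain ⟨u, hu, hu0⟩ := h0
      refine ⟨u, hu, ?_⟩
      rw [LinearMap.comp_apply, LinearMap.comp_apply]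
      refine Rne _ fun h1 => ?_
      have h2 := hinj _ (hγU u hu) h1
      have h4 : u = 0 := by
        by_contra h5
        exact Rne γ h5 h2
      rw [h4, map_zero] at hu0
      exact hu0 rfl) (ψ := ψ) (ψ' := fun g => ψ (γ * g * γ⁻¹)) hT (by
      intro g hg u hu
      have h1 : γ * g * γ⁻¹ ∈ Δ := hg
      have h2 : R γ (R g u) = R (γ * g * γ⁻¹) (R γ u) := by
        rw [← Module.End.mul_apply, ← Module.End.mul_apply, ← map_mul, ← map_mul]
        congr 2
        group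
      have h4 : ∀ w, R γ⁻¹ (R (γ * g * γ⁻¹) w) = R g (R γ⁻¹ w) := by
        intro w
        rw [← Module.End.mul_apply, ← Module.End.mul_apply, ← map_mul, ← map_mul]
        congr 2
        group
      rw [LinearMap.comp_apply, LinearMap.comp_apply, LinearMap.comp_apply, LinearMap.comp_apply,
        h2, hT _ h1 _ (hγU u hu), map_smul, h4])
  -- `T` intertwines the reflections up to a scalar
  have hc := (refl_ne hd hφ h).1
  have hc' := (refl_ne hd' hφ' h').1
  have hrel : ∀ u ∈ U, c • (T u + ((ε - 1) * φ u) • T d) =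
      (a * c') • (T u + ((ε' - 1) * φ' (T u)) • d') := by
    intro u hu
    have h1 := haT u hu
    rw [LinearMap.comp_apply, LinearMap.comp_apply] at h1
    have h2 : T (R γ u) = R γ (a • T u) := by rw [← h1, Rinv']
    rw [h u hu, map_smul, map_smul, map_add, map_smul, h' _ (hTU u hu), smul_smul] at h2
    exact h2
  -- a vector in both kernels
  obtain ⟨u, hu, hu0, hu1, hu2⟩ : ∃ u ∈ U, u ≠ 0 ∧ φ u = 0 ∧ φ' (T u) = 0 := by
    by_contra hcon
    push Not at hcon
    have hinj2 : Function.Injective (((φ.comp U.subtype).prod ((φ'.comp T).comp U.subtype)) :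
        U →ₗ[K] K × K) := by
      rw [injective_iff_map_eq_zero]
      intro u hu
      by_contra h4
      have h5 : φ u = 0 := congrArg Prod.fst hu
      have h6 : φ' (T u) = 0 := congrArg Prod.snd hu
      exact hcon u u.2 (fun h => h4 (Subtype.ext h)) h5 h6
    have h4 := LinearMap.finrank_le_finrank_of_injective hinj2
    rw [finrank_prod, finrank_self] at h4
    omega
  have hTu : T u ≠ 0 := fun h => hu0 (hinj u hu h)
  have h4 := hrel u hu
  rw [hu1, hu2, mul_zero, mul_zero, zero_smul, zero_smul, add_zero] at h4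
  have hcc : c = a * c' := by
    have h7 : (c - a * c') • T u = 0 := by rw [sub_smul, h4, sub_self]
    exact sub_eq_zero.1 ((smul_eq_zero.1 h7).resolve_right hTu)
  have h5 := hrel d hd
  rw [← hcc, hφ, mul_one] at h5
  have h6 : (ε - 1) • T d = ((ε' - 1) * φ' (T d)) • d' := by
    have h7 : T d + (ε - 1) • T d = T d + ((ε' - 1) * φ' (T d)) • d' := smul_right_injective _ hc h5
    exact add_left_cancel h7
  have h7 := congrArg φ' h6
  rw [map_smul, map_smul, hφ', smul_eq_mul, smul_eq_mul, mul_one] at h7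
  have hd0 : d ≠ 0 := by
    rintro rfl
    rw [map_zero] at hφ
    exact zero_ne_one hφ
  have hTd : T d ≠ 0 := fun h => hd0 (hinj d hd h)
  have h8 : φ' (T d) ≠ 0 := by
    intro h9
    rw [h9, mul_zero, zero_smul] at h6
    rcases smul_eq_zero.1 h6 with h10 | h10
    · exact hε (sub_eq_zero.1 h10)
    · exact hTd h10
  have h9 := mul_right_cancel₀ h8 h7
  apply hεε
  linear_combination -h9

end Pool.Agent.TH118.CR
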