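import Mathlib
import Pool.Agent.TH118.CR.Sep
import Pool.Agent.TH118.WC.Final

/-!
# Tate classes and complex reflections
-/

set_option linter.unusedSectionVars false

namespace Pool.Agent.TH118.CR

open Module Pool.Agent.H204R3.SP Pool.Agent.H204R3.GP Pool.Agent.W522.U Pool.Agent.TH118.WC

section defs

variable {K : Type} [Field K] {X : Type} [AddCommGroup X] [Module K X]
  {Γ : Type} [Group Γ] (R : Representation K Γ X) {I : Type} (E : I → Submodule K X)

/-- The space is the sum of the strongly irreducible subspaces `E i`, all of dimension at least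
three. -/
def StronglyIrreducibleSum : Prop :=
  (∀ i, SI R (E i)) ∧ (∀ i, 3 ≤ finrank K (E i)) ∧ ⨆ i, E i = ⊤

/-- For each `i` there is an element of the group of finite order on the whole space, acting on
each `E j` as a scalar times a complex reflection with eigenvalue `ε j`, with `ε i` different from
`1`, `-1` and all other `ε j`. -/
def HasReflections : Prop :=
  ∀ i, ∃ γ : Γ, (∃ k : ℕ, 0 < k ∧ R γ ^ k = 1) ∧ ∃ ε : I → K,
    (∀ j, ReflectsOn R γ (E j) (ε j)) ∧ ε i ≠ 1 ∧ ε i ≠ -1 ∧ ∀ j, j ≠ i → ε j ≠ ε i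

/-- For each `i` there is an element of the group that is diagonalizable and has two eigenvectors
in `E i` such that the quotient of the eigenvalues is not a root of unity. -/
def HasFrobenii : Prop :=
  ∀ i, ∃ (F : Γ) (b : Basis (Fin (finrank K X)) K X), (∀ k, ∃ a : K, R F (b k) = a • b k) ∧
    ∃ u ∈ E i, ∃ v ∈ E i, u ≠ 0 ∧ v ≠ 0 ∧ ∃ al be : K, R F u = al • u ∧ R F v = be • v ∧
      ∀ k : ℕ, 0 < k → al ^ k ≠ be ^ k

end defs

variable {K : Type} [Field K] [CharZero K] [IsAlgClosed K] {X : Type} [AddCommGroup X]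
  [Module K X] [FiniteDimensional K X] {Γ : Type} [Group Γ] {R : Representation K Γ X}
  {χ : Γ →* K} {I : Type} {E : I → Submodule K X}

/-- Every strongly irreducible subspace is potentially isomorphic to a given one. -/
theorem exists_iso (hss : HasProj R) (hE : StronglyIrreducibleSum R E) {U : Submodule K X}
    (hU : SI R U) : ∃ i, Tw R (fun _ => 1) U (E i) := by
  obtain ⟨Δ, hΔ, hst⟩ := hU.2.1
  obtain ⟨p, hp1, hp2, hp3⟩ := hss Δ hΔ U hst
  by_contra hcon
  push Not at hcon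
  have h0 : ∀ i, ∀ u ∈ E i, p u = 0 := by
    intro i
    by_contra h1
    push Not at h1
    obtain ⟨u, hu, hu0⟩ := h1
    refine hcon i (Tw.symm1 (hE.1 i) hU ⟨Δ, hΔ, p, fun u _ => hp1 u, ⟨u, hu, hu0⟩, ?_⟩)
    intro g hg u _
    rw [one_smul]
    exact hp3 g hg u
  have h1 : (⊤ : Submodule K X) ≤ LinearMap.ker p := by
    rw [← hE.2.2, iSup_le_iff]
    exact fun i u hu => h0 i u hu
  obtain ⟨u, hu, hu0⟩ := Submodule.exists_mem_ne_zero_of_ne_bot hU.1
  apply hu0
  rw [← hp2 u hu]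
  exact h1 Submodule.mem_top

/-- The main theorem over an algebraically closed field. -/
theorem refl_det (ω : X →ₗ[K] X →ₗ[K] K) (hnd : ∀ u, (∀ v, ω u v = 0) → u = 0)
    (hωR : ∀ g u v, ω (R g u) (R g v) = χ g * ω u v) (hss : HasProj R)
    (hE : StronglyIrreducibleSum R E) (hrefl : HasReflections R E) (hF : HasFrobenii R E)
    {m : ℕ} (φ : MultilinearMap K (fun _ : Fin m × Fin 2 => X) K) (hφ : IsTate R χ m φ) :
    φ ∈ Submodule.span K (DetProd R χ m) := by
  have hst : ∀ j, ∀ Y ∈ lieT R χ, ∀ u ∈ E j, Y u ∈ E j := fun j Y hY =>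
    lieT_stable ω hnd hωR hss (hE.1 j).2.1 hY
  have h2 : ∀ j, 2 ≤ finrank K (E j) := fun j => le_trans (by norm_num) (hE.2.1 j)
  have hN : ∀ i, ∃ N ∈ lieT R χ, N * N = 0 ∧ finrank K ((E i).map N) = 1 := by
    intro i
    obtain ⟨γ, ⟨k, hk, hγ⟩, ε, hr, hε1, hε2, -⟩ := hrefl i
    obtain ⟨F, b, hb, u, hu, v, hv, hu0, hv0, al, be, hal, hbe, hab⟩ := hF i
    refine refl_N E hE.2.2 hst h2 hk hγ ε hr i hε1 hε2 (hE.1 i) ?_
    obtain ⟨Y, hY, s, t, hst', hYu, hYv⟩ := exists_nonscalar R χ F b hb hu0 hv0 hal hbe hab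
    refine ⟨Y, hY, ?_⟩
    rintro ⟨a, ha⟩
    apply hst'
    have h3 : s = a := by
      have h4 : (s - a) • u = 0 := by rw [sub_smul, ← hYu, ha u hu, sub_self]
      exact sub_eq_zero.1 ((smul_eq_zero.1 h4).resolve_right hu0)
    have h5 : t = a := by
      have h4 : (t - a) • v = 0 := by rw [sub_smul, ← hYv, ha v hv, sub_self]
      exact sub_eq_zero.1 ((smul_eq_zero.1 h4).resolve_right hv0)
    rw [h3, h5]
  have hsep : ∀ i j (ψ : Γ → K), Tw R ψ (E i) (E j) → i = j := by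
    intro i j ψ h
    by_contra hij
    obtain ⟨γ, -, ε, hr, hε1, -, hε⟩ := hrefl i
    exact sep (hE.1 i) (hE.1 j) (hE.2.1 i) (hr i) (hr j) hε1 (hε j (Ne.symm hij)) ψ h
  have hdim : ∀ U, SI R U → 3 ≤ finrank K U := by
    intro U hU
    obtain ⟨i, Δ, hΔ, T, hTU, h0, hT⟩ := exists_iso hss hE hU
    obtain ⟨e, -⟩ := tw_equiv hU (hE.1 i) hΔ hTU h0 hT
    rw [e.finrank_eq]
    exact hE.2.1 i
  refine nil_det ω hnd hωR ?_ hss ?_ ?_ φ hφ
  · intro U hU _
    obtain ⟨i, hi⟩ := exists_iso hss hE hU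
    obtain ⟨N, hN1, hN2, hN3⟩ := hN i
    refine ⟨N, hN1, hN2, ?_⟩
    rw [← rank_transfer ω hnd hωR hss hU (hE.1 i) hi hN1]
    exact hN3
  · intro U hU h1
    have h3 := hdim U hU
    omega
  · intro U U' hU hU' _ _ ψ hψ
    obtain ⟨i, hi⟩ := exists_iso hss hE hU
    obtain ⟨j, hj⟩ := exists_iso hss hE hU'
    have h3 := ((hi.symm1 hU (hE.1 i)).trans hU hψ).trans hU' hj
    have hij := hsep i j _ h3
    subst hij
    exact hi.trans1 (hE.1 i) (hj.symm1 hU' (hE.1 i))

end Pool.Agent.TH118.CR
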